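import Pool.Agent.Helper50.CT.Goals

/-! Packet CT-TB (MP_ccd65d_gt): box dimension of the torus. -/

set_option autoImplicit false

namespace Pool.Agent.Helper49.CT

open Pool.Agent.Helper50.CT

theorem goalTB : Pool.Agent.Helper50.CT.StmtTB := by
  intro n κ d T _ π hd hT
  obtain ⟨c, C0, hc, hbl⟩ := hd.bilip
  have hnn : ∀ x y, 0 ≤ d x y := fun x y =>
    (mul_nonneg hc.le (norm_nonneg _)).trans (hbl x y).1
  have hself : ∀ x, d x x = 0 := fun x => by
    have := (hbl x x).2
    rw [sub_self, norm_zero, mul_zero] at this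
    exact le_antisymm this (hnn x x)
  have hle : ∀ (x y : Fin n → ℝ) (k : Fin n → ℤ), dist (π x) (π y) ≤ d x (rv k + y) := by
    intro x y k
    rw [hT.quot]
    exact ciInf_le ⟨0, by rintro _ ⟨k, rfl⟩; exact hnn _ _⟩ k
  have hper : ∀ (x : Fin n → ℝ) (k : Fin n → ℤ), π (rv k + x) = π x := by
    intro x k
    have := hle (rv k + x) x k
    rw [hself] at this
    exact dist_le_zero.1 this
  have hle0 : ∀ x y : Fin n → ℝ, dist (π x) (π y) ≤ d x y := by
    intro x y
    have := hle x y 0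
    have h0 : rv (0 : Fin n → ℤ) + y = y := by
      ext i
      simp [rv]
    rwa [h0] at this
  set C : ℝ := max C0 1 with hC
  have hC1 : 1 ≤ C := le_max_right _ _
  have hCd : ∀ x y, d x y ≤ C * ‖x - y‖ := fun x y =>
    (hbl x y).2.trans (mul_le_mul_of_nonneg_right (le_max_left _ _) (norm_nonneg _))
  have hrep : ∀ t : T, ∃ x : Fin n → ℝ, π x = t ∧ ∀ i, 0 ≤ x i ∧ x i < 1 := by
    intro t
    obtain ⟨x, rfl⟩ := hT.surj t
    refine ⟨rv (fun i => -⌊x i⌋) + x, hper _ _, fun i => ?_⟩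
    have e : (rv (fun i => -⌊x i⌋) + x) i = Int.fract (x i) := by
      simp only [rv, Pi.add_apply, Int.fract]
      push_cast
      ring
    rw [e]
    exact ⟨Int.fract_nonneg _, Int.fract_lt_one _⟩
  choose g hg hg1 using hrep
  refine ⟨(C + 1) ^ n, fun σ hσ hσ1 S hS => ?_⟩
  set M : ℕ := ⌊C / σ⌋₊ + 1 with hM
  have hMpos : (0 : ℝ) < M := by
    rw [hM]
    positivity
  have hM1 : C / σ < M := by
    rw [hM]
    push_cast
    exact Nat.lt_floor_add_one _
  have hM2 : (M : ℝ) * σ ≤ C + 1 := by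
    have h1 : (⌊C / σ⌋₊ : ℝ) ≤ C / σ := Nat.floor_le (by positivity)
    have h2 : (M : ℝ) ≤ C / σ + 1 := by
      rw [hM]
      push_cast
      linarith
    calc (M : ℝ) * σ ≤ (C / σ + 1) * σ := mul_le_mul_of_nonneg_right h2 hσ.le
      _ = C + σ := by field_simp
      _ ≤ C + 1 := by linarith
  have hlt : ∀ (t : T) (i : Fin n), ⌊(M : ℝ) * g t i⌋₊ < M := by
    intro t i
    rw [Nat.floor_lt (mul_nonneg hMpos.le (hg1 t i).1)]
    calc (M : ℝ) * g t i < M * 1 := mul_lt_mul_of_pos_left (hg1 t i).2 hMpos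
      _ = M := mul_one _
  have hcard : S.card ≤ Fintype.card (Fin n → Fin M) := by
    rw [← Finset.card_univ]
    refine Finset.card_le_card_of_injOn (fun t i => ⟨⌊(M : ℝ) * g t i⌋₊, hlt t i⟩)
      (fun _ _ => Finset.mem_coe.2 (Finset.mem_univ _)) ?_
    intro t ht t' ht' he
    by_contra hne
    have h1 := hS t (Finset.mem_coe.1 ht) t' (Finset.mem_coe.1 ht') hne
    have h2 : ‖g t - g t'‖ < 1 / M := by
      rw [pi_norm_lt_iff (by positivity)]
      intro i
      have h3 : ⌊(M : ℝ) * g t i⌋₊ = ⌊(M : ℝ) * g t' i⌋₊ := by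
        have := congrFun he i
        simpa using this
      have h4 := Nat.floor_le (mul_nonneg hMpos.le (hg1 t i).1)
      have h5 := Nat.lt_floor_add_one ((M : ℝ) * g t i)
      have h6 := Nat.floor_le (mul_nonneg hMpos.le (hg1 t' i).1)
      have h7 := Nat.lt_floor_add_one ((M : ℝ) * g t' i)
      rw [h3] at h4 h5
      rw [Pi.sub_apply, Real.norm_eq_abs, lt_div_iff₀ hMpos, ← abs_of_pos hMpos, ← abs_mul,
        abs_lt]
      constructor <;> nlinarith
    have h8 : dist t t' < σ := by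
      calc dist t t' = dist (π (g t)) (π (g t')) := by rw [hg, hg]
        _ ≤ d (g t) (g t') := hle0 _ _
        _ ≤ C * ‖g t - g t'‖ := hCd _ _
        _ < C * (1 / M) := mul_lt_mul_of_pos_left h2 (by linarith)
        _ < σ := by
          rw [mul_one_div, div_lt_iff₀ hMpos]
          rw [div_lt_iff₀ hσ] at hM1
          linarith
    linarith
  rw [Fintype.card_fun, Fintype.card_fin, Fintype.card_fin] at hcard
  calc (S.card : ℝ) * σ ^ n ≤ (M : ℝ) ^ n * σ ^ n := by
        apply mul_le_mul_of_nonneg_right _ (by positivity)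
        exact_mod_cast hcard
    _ = ((M : ℝ) * σ) ^ n := (mul_pow _ _ _).symm
    _ ≤ (C + 1) ^ n := pow_le_pow_left₀ (by positivity) hM2 n

end Pool.Agent.Helper49.CT
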